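import Pool.Agent.R779.BC.Thm
import Pool.Agent.R632.RH.Main

/-!
# Residual properties and hierarchies in classes closed under extensions
-/

set_option autoImplicit false

namespace Pool.Agent.R779.BC

open Pool.Agent.Y110.FJ
open Pool.Agent.R632.RH
open Pool.Agent.R941.BC (Inherit W El W_sub W_union W_ext W_over W_le)

/-- the isolated normal subgroups of `K` (normal subgroups `N` such that `K / N` is torsion-free)
satisfy the descending chain condition -/
def DCC (K : Type) [Group K] : Prop :=
  ∀ s : ℕ → Subgroup K, (∀ i, Isl (s i)) → Antitone s → ∃ n, ∀ m, n ≤ m → s m = s n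

theorem int_mem {C : ∀ (G : Type) [Group G], Prop} (hC : ExtCl C) : C (Multiplicative ℤ) := by
  refine hC.sub _ (FreeGroup Unit) (zpowersHom _ (FreeGroup.of ())) ?_ (freeX hC Unit)
  rw [injective_iff_map_eq_one]
  intro n hn
  have h1 : (FreeGroup.lift (fun _ : Unit => Multiplicative.ofAdd (1 : ℤ)))
      (zpowersHom _ (FreeGroup.of ()) n) = 1 := by rw [hn, map_one]
  rw [zpowersHom_apply, map_zpow, FreeGroup.lift_apply_of] at h1
  have h2 : Multiplicative.toAdd n = 0 := by
    have h3 := congrArg Multiplicative.toAdd h1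
    rw [toAdd_zpow, toAdd_ofAdd, toAdd_one] at h3
    simpa using h3
  exact h2

theorem detect {C : ∀ (G : Type) [Group G], Prop} (hC : ExtCl C) {G K : Type} [Group G]
    [Group K] (hG : ResTF C G) (hK : DCC K) (j : K →* G) (hj : Function.Injective j) :
    ∃ (Q : Type) (_ : Group Q) (f : G →* Q), C Q ∧ ∀ k, f (j k) = 1 → k = 1 := by
  have hwf : WellFoundedLT {N : Subgroup K // Isl N} := by
    have h1 : WellFoundedGT ({N : Subgroup K // Isl N})ᵒᵈ := by
      rw [wellFoundedGT_iff_monotone_chain_condition]
      intro a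
      obtain ⟨n, hn⟩ := hK (fun i => (OrderDual.ofDual (a i)).1)
        (fun i => (OrderDual.ofDual (a i)).2) (fun i k hik => a.2 hik)
      refine ⟨n, fun m hm => ?_⟩
      have h2 := hn m hm
      have h3 : OrderDual.ofDual (a n) = OrderDual.ofDual (a m) := Subtype.ext h2.symm
      exact h3
    exact ⟨h1.wf⟩
  let T : Set {N : Subgroup K // Isl N} := {N | ∃ (Q : Type) (_ : Group Q) (f : G →* Q),
    C Q ∧ TorsionFree Q ∧ N.1 = (f.comp j).ker}
  have mk : ∀ (Q : Type) [Group Q] (f : G →* Q), TorsionFree Q → Isl (f.comp j).ker := by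
    intro Q _ f hQ
    refine ⟨inferInstance, ?_⟩
    intro x n hn hx
    rw [MonoidHom.mem_ker, map_pow] at hx
    exact hQ _ n hn hx
  have hZ : TorsionFree (Multiplicative ℤ) := by
    intro g n hn hg
    have h1 : (n : ℤ) * Multiplicative.toAdd g = 0 := by
      have := congrArg Multiplicative.toAdd hg
      rw [toAdd_pow, toAdd_one, nsmul_eq_mul] at this
      exact this
    rcases mul_eq_zero.1 h1 with h2 | h2
    · omega
    · exact h2
  have hT : T.Nonempty := ⟨⟨((1 : G →* Multiplicative ℤ).comp j).ker, mk _ _ hZ⟩,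
    Multiplicative ℤ, inferInstance, 1, (int_mem hC), hZ, rfl⟩
  obtain ⟨⟨N, hN⟩, ⟨Q, _, f, hQ, hQT, hNf⟩, hmin⟩ := hwf.wf.has_min T hT
  simp only at hNf
  subst hNf
  refine ⟨Q, inferInstance, f, hQ, ?_⟩
  intro k hk
  by_contra hk1
  obtain ⟨Q', _, f', hQ', hQT', hf'⟩ := hG (j k) (fun h => hk1 (hj (h.trans (map_one j).symm)))
  have hP : TorsionFree (Q × Q') := by
    intro g n hn hg
    exact Prod.ext (hQT _ n hn (congrArg Prod.fst hg)) (hQT' _ n hn (congrArg Prod.snd hg))
  refine hmin ⟨((f.prod f').comp j).ker, mk _ _ hP⟩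
    ⟨Q × Q', inferInstance, f.prod f', prod hC hQ hQ', hP, rfl⟩ ?_
  refine lt_of_le_of_ne ?_ ?_
  · intro x hx
    exact congrArg Prod.fst hx
  · intro h
    have h1 : k ∈ (f.comp j).ker := hk
    have h2 : k ∈ ((f.prod f').comp j).ker := by
      have h3 := congrArg Subtype.val h
      simp only at h3
      rw [h3]
      exact h1
    exact hf' (congrArg Prod.snd h2)


/-- Hierarchies: the groups which are built from groups in `C` by amalgamated products and HNN
extensions whose edge groups satisfy the descending chain condition for isolated normal subgroups and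
by directed unions. -/
inductive Hier (C : ∀ (G : Type) [Group G], Prop) : ∀ (G : Type) [Group G], Prop
  | vertex (G : Type) [Group G] : C G → Hier C G
  | amalgam (G : Type) [Group G] (A B K : Subgroup G) : Amg A B K → DCC K →
      Hier C A → Hier C B → Hier C G
  | hnn (M : Type) [Group M] (A B : Subgroup M) (φ : A ≃* B) : DCC A →
      Hier C M → Hier C (HNNExtension M A B φ)
  | iso (G H : Type) [Group G] [Group H] : G ≃* H → Hier C H → Hier C G
  | union (G : Type) [Group G] (I : Type) (K : I → Subgroup G) : Nonempty I →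
      Directed (· ≤ ·) K → (∀ g, ∃ i, g ∈ K i) → (∀ i, Hier C (K i)) → Hier C G

theorem hier_mem {C : ∀ (G : Type) [Group G], Prop} (hC : ExtCl C) (G : Type) [Group G]
    (hG : Hier C G) : ResTF C G → C G := by
  induction hG with
  | vertex G h => exact fun _ => h
  | amalgam G A B K hamg hK _ _ ihA ihB =>
    intro hR
    obtain ⟨Q, _, f, hQ, hf⟩ := detect hC hR hK K.subtype K.subtype_injective
    refine ext_hom hC f (am hC A B K hamg f (fun k hk h => congrArg Subtype.val (hf ⟨k, hk⟩ h))
      ?_ ?_) hQ
    · exact hC.sub _ _ (Subgroup.subtype _) Subtype.val_injective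
        (ihA (hR.of_injective A.subtype A.subtype_injective))
    · exact hC.sub _ _ (Subgroup.subtype _) Subtype.val_injective
        (ihB (hR.of_injective B.subtype B.subtype_injective))
  | hnn M A B φ hA _ ih =>
    intro hR
    have hinj : Function.Injective (HNNExtension.of.comp A.subtype : A →* HNNExtension M A B φ) :=
      fun x y h => Subtype.ext (HNNExtension.of_injective φ h)
    obtain ⟨Q, _, f, hQ, hf⟩ := detect hC hR hA _ hinj
    refine ext_hom hC f (hn hC f (fun a ha h => congrArg Subtype.val (hf ⟨a, ha⟩ h)) ?_) hQ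
    exact hC.sub _ _ (Subgroup.subtype _) Subtype.val_injective
      (ih (hR.of_injective _ (HNNExtension.of_injective φ)))
  | iso G H e _ ih =>
    intro hR
    exact hC.sub G H e.toMonoidHom e.injective
      (ih (hR.of_injective e.symm.toMonoidHom e.symm.injective))
  | union G I K hI hK hg _ ih =>
    intro hR
    refine hC.union _ fun L hL => ?_
    obtain ⟨i, hi⟩ := fg_le K hK hg L hL
    exact hC.sub _ _ (Subgroup.inclusion hi) (Subgroup.inclusion_injective hi)
      (ih i (hR.of_injective (K i).subtype (K i).subtype_injective))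

variable {B S : ∀ (G : Type) [Group G], Prop}

theorem hier_main (h : Inherit B S) (hF : W B (FreeGroup ℕ)) :
    (∀ (K : Type) [Group K], FiniteHirsch K → DCC K) ∧
    ∀ (N : Type) [Group N], Hier (W B) N → ResTF (W B) N → W B N ∧
      ∀ (G : Type) [Group G] (f : N →* G), Function.Injective f → ∀ [f.range.Normal], Countable G →
        (B (G ⧸ f.range) → B G) ∧ (S (G ⧸ f.range) → S G) := by
  refine ⟨fun K _ hK => dcc K hK, fun N _ hN hR => ?_⟩
  have h1 : W B N := hier_mem (W_extCl h hF) N hN hR
  refine ⟨h1, fun G _ f hf _ _ => ?_⟩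
  have h2 : W B f.range := W_sub f.range N (MonoidHom.ofInjective hf).symm.toMonoidHom
    (MulEquiv.injective _) h1
  exact ⟨fun hB => h.ext G _ hB (W_over G _ h2), fun hS => h.extS G _ hS (W_over G _ h2)⟩

end Pool.Agent.R779.BC
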