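import Pool.Agent.R779.BC.Art

/-!
# Artin groups and the Baum–Connes conjecture with coefficients
-/

set_option autoImplicit false

namespace Pool.Agent.R779.BC

open Pool.Agent.Helper741
open Pool.Agent.R941.BC (Inherit W El W_sub W_union W_ext W_over W_le)

variable {B S : ∀ (G : Type) [Group G], Prop}

/-- the parabolic subgroup generated by `T` -/
def par {V : Type} (M : CoxeterMatrix V) (T : Set V) : Subgroup (Artin M) :=
  Subgroup.closure (Artin.gen M '' T)

/-- no label infinity in `T` -/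
def InfFree {V : Type} (M : CoxeterMatrix V) (T : Finset V) : Prop :=
  ∀ i ∈ T, ∀ j ∈ T, M i j ≠ 0

theorem art_main (h : Inherit B S) (hF : W B (FreeGroup ℕ))
    (hW : ∀ (V : Type) [Finite V] (M : CoxeterMatrix V), W B M.Group) {V : Type}
    (M : CoxeterMatrix V) :
    (W B (Artin M) ↔ ∀ T : Finset V, InfFree M T → W B ↥(par M (T : Set V))) ∧
    ((∀ T : Finset V, InfFree M T → W B ↥(par M (T : Set V))) →
      ∀ (G : Type) [Group G] (N : Subgroup G) [N.Normal], Nonempty (Artin M ≃* N) →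
        (W B (G ⧸ N) → W B G) ∧ (Countable G → (B (G ⧸ N) → B G) ∧ (S (G ⧸ N) → S G))) := by
  have h1 : W B (Artin M) ↔ ∀ T : Finset V, InfFree M T → W B ↥(par M (T : Set V)) :=
    artin_iff (W_extCl h hF) hW M
  refine ⟨h1, fun h2 G _ N _ he => ?_⟩
  obtain ⟨e⟩ := he
  have h3 : W B N := W_sub N (Artin M) e.symm.toMonoidHom e.symm.injective (h1.2 h2)
  exact ⟨fun hQ => W_ext h G N h3 hQ, fun _ => ⟨fun hB => h.ext G N hB (W_over G N h3),
    fun hS => h.extS G N hS (W_over G N h3)⟩⟩

end Pool.Agent.R779.BC
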