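import Pool.Agent.R779.BC.Cl

/-!
# Kernels of homomorphisms of amalgamated products which are injective on the amalgamated subgroup
-/

set_option autoImplicit false

namespace Pool.Agent.R779.BC

open Pool.Agent.Y110.FJ
open Pool.Agent.Y417.FJ
open Pool.Agent.Y462.SS (Wr)
open Pool.Agent.R665.FJ

/-- an amalgamated product with a homomorphism `f` which is injective on the factors embeds in the
semidirect product of a free group on a set with an action and the target of `f` -/
theorem am_emb (G P : Type) [Group G] [Group P] (A B K : Subgroup G) (hamg : Amg A B K)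
    (f : G →* P) (hfA : ∀ a ∈ A, f a = 1 → a = 1) (hfB : ∀ b ∈ B, f b = 1 → b = 1) :
    ∃ (X : Type) (_ : MulAction P X) (Θ : G →* FreeGroup X ⋊[permAut X P] P),
      Function.Injective Θ ∧ ∀ g, (Θ g).right = f g := by
  let X : Type := P ⧸ K.map f
  let x1 : X := ((1 : P) : P ⧸ K.map f)
  let z : FreeGroup X ⋊[permAut X P] P := SemidirectProduct.inl (FreeGroup.of x1)
  have hx1 : ∀ p : P, p • x1 = x1 ↔ p ∈ K.map f := by
    intro p
    show ((p * 1 : P) : P ⧸ K.map f) = ((1 : P) : P ⧸ K.map f) ↔ _
    rw [mul_one, eq_comm, QuotientGroup.eq]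
    simp
  have hz : ∀ p : P, p ∈ K.map f →
      z * SemidirectProduct.inr p * z⁻¹ = (SemidirectProduct.inr p : FreeGroup X ⋊[permAut X P] P) := by
    intro p hp
    have h1 : (permAut X P p) (FreeGroup.of x1) = FreeGroup.of x1 := by
      have := permAut_mk p [((x1, true) : X × Bool)]
      have h2 : (permAut X P p) (FreeGroup.of x1) = FreeGroup.of (p • x1) := this
      rw [h2, (hx1 p).2 hp]
    have h3 : (SemidirectProduct.inr p : FreeGroup X ⋊[permAut X P] P) * z * (SemidirectProduct.inr p)⁻¹ = z := by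
      rw [← map_inv, ← SemidirectProduct.inl_aut, h1]
    have h4 : (SemidirectProduct.inr p : FreeGroup X ⋊[permAut X P] P) * z = z * SemidirectProduct.inr p := by
      rw [mul_inv_eq_iff_eq_mul] at h3; exact h3
    rw [← h4, mul_inv_cancel_right]
  let fA : A →* FreeGroup X ⋊[permAut X P] P := (SemidirectProduct.inr.comp f).comp A.subtype
  let fB : B →* FreeGroup X ⋊[permAut X P] P :=
    ((MulAut.conj z).toMonoidHom.comp (SemidirectProduct.inr.comp f)).comp B.subtype
  obtain ⟨Θ, hΘA, hΘB⟩ := hamg.univ (FreeGroup X ⋊[permAut X P] P) fA fB (by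
    intro c hc
    show SemidirectProduct.inr (f c) = z * SemidirectProduct.inr (f c) * z⁻¹
    rw [hz (f c) ⟨c, hc, rfl⟩])
  have hA' : ∀ a ∈ A, Θ a = SemidirectProduct.inr (f a) := fun a ha => hΘA ⟨a, ha⟩
  have hB' : ∀ b ∈ B, Θ b = z * SemidirectProduct.inr (f b) * z⁻¹ := fun b hb => hΘB ⟨b, hb⟩
  have hright : ∀ g : G, (Θ g).right = f g := by
    intro g
    have hg : g ∈ Subgroup.closure ((A : Set G) ∪ B) := by
      rw [← Subgroup.sup_eq_closure, hamg.gen]; trivial
    induction hg using Subgroup.closure_induction with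
    | mem x hx =>
      rcases hx with hx | hx
      · rw [hA' x hx]; simp
      · rw [hB' x hx]; simp [z]
    | one => simp
    | mul x y _ _ hx hy => rw [map_mul, map_mul, SemidirectProduct.mul_right, hx, hy]
    | inv x _ hx => rw [map_inv, map_inv, SemidirectProduct.inv_right, hx]
  have hleft : ∀ g h : G, (Θ (g * h)).left = (Θ g).left * permAut X P (f g) (Θ h).left := by
    intro g h
    rw [map_mul, SemidirectProduct.mul_left, hright]
  have hlA : ∀ a ∈ A, (Θ a).left = 1 := by
    intro a ha
    rw [hA' a ha]; simp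
  have hlB : ∀ b ∈ B, (Θ b).left = FreeGroup.mk [(x1, true), (f b • x1, false)] := by
    intro b hb
    rw [hB' b hb]
    have h1 : (z * SemidirectProduct.inr (f b) * z⁻¹).left
        = FreeGroup.of x1 * permAut X P (f b) (FreeGroup.of x1)⁻¹ := by
      simp [z, SemidirectProduct.mul_left]
    have h2 : permAut X P (f b) (FreeGroup.of x1)⁻¹ = FreeGroup.mk [((f b • x1, false) : X × Bool)] := by
      have := permAut_mk (f b) [((x1, false) : X × Bool)]
      rw [FreeGroup.of, FreeGroup.inv_mk]
      exact this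
    rw [h1, h2, FreeGroup.of, FreeGroup.mul_mk]
    rfl
  -- elements outside of `K` have images outside of `f K`
  have hoA : ∀ a ∈ A, a ∉ K → f a ∉ K.map f := by
    rintro a ha haK ⟨k, hk, hfk⟩
    have : f (a * k⁻¹) = 1 := by rw [map_mul, map_inv, hfk, mul_inv_cancel]
    have h2 := hfA _ (A.mul_mem ha (A.inv_mem (hamg.le_left hk))) this
    exact haK (by rw [mul_inv_eq_one.1 h2]; exact hk)
  have hoB : ∀ b ∈ B, b ∉ K → f b ∉ K.map f := by
    rintro b hb hbK ⟨k, hk, hfk⟩
    have : f (b * k⁻¹) = 1 := by rw [map_mul, map_inv, hfk, mul_inv_cancel]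
    have h2 := hfB _ (B.mul_mem hb (B.inv_mem (hamg.le_right hk))) this
    exact hbK (by rw [mul_inv_eq_one.1 h2]; exact hk)
  have halt : ∀ g, Alt A B K g → ∃ L : List (X × Bool), FreeGroup.IsReduced ((x1, true) :: L) ∧
      (Θ g).left = FreeGroup.mk ((x1, true) :: L) := by
    intro g hg
    induction hg with
    | base b a hb hbK ha =>
      refine ⟨[(f b • x1, false)], ?_, ?_⟩
      · rw [FreeGroup.isReduced_cons_cons]
        refine ⟨fun h => ?_, FreeGroup.IsReduced.singleton⟩
        exact absurd ((hx1 _).1 h.symm) (hoB b hb hbK)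
      · rw [hleft, hlA a ha, map_one, mul_one, hlB b hb]
    | step b a g hb hbK ha haK hg ih =>
      obtain ⟨L, hL, hLg⟩ := ih
      refine ⟨(f b • x1, false) :: ((x1, true) :: L).map (fun q => (f (b * a) • q.1, q.2)), ?_, ?_⟩
      · rw [FreeGroup.isReduced_cons_cons]
        refine ⟨fun h => absurd ((hx1 _).1 h.symm) (hoB b hb hbK), ?_⟩
        rw [List.map_cons, FreeGroup.isReduced_cons_cons]
        refine ⟨fun h => ?_, ?_⟩
        · exfalso
          have h' : f b • x1 = f (b * a) • x1 := h
          rw [map_mul, mul_smul] at h'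
          exact hoA a ha haK ((hx1 _).1 (MulAction.injective (f b) h').symm)
        · have := reduced_map (f (b * a)) _ hL
          rwa [List.map_cons] at this
      · have h1 : (Θ (b * a)).left = FreeGroup.mk [(x1, true), (f b • x1, false)] := by
          rw [hleft, hlA a ha, map_one, mul_one, hlB b hb]
        rw [hleft, h1, hLg, permAut_mk, FreeGroup.mul_mk]
        rfl
  have hinj : Function.Injective Θ := by
    rw [injective_iff_map_eq_one]
    intro g hg
    rcases nf_all A B K hamg.le_left hamg.le_right hamg.gen g with hgA | ⟨a, ha, h, hh, rfl⟩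
    · have h1 := hright g
      rw [hg] at h1
      exact hfA g hgA h1.symm
    · exfalso
      obtain ⟨L, hL, hLg⟩ := halt h hh
      have h1 := hleft a h
      rw [hg, hlA a ha, one_mul, hLg, permAut_mk] at h1
      have h2 : FreeGroup.IsReduced (((x1, true) :: L).map fun q => (f a • q.1, q.2)) :=
        reduced_map _ _ hL
      classical
      have h3 : (1 : FreeGroup X).toWord = (((x1, true) :: L).map fun q => (f a • q.1, q.2)) := by
        have h4 : (FreeGroup.mk (((x1, true) :: L).map fun q => (f a • q.1, q.2))).toWord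
            = (((x1, true) :: L).map fun q => (f a • q.1, q.2)) := by
          rw [FreeGroup.toWord_mk]
          exact h2.reduce_eq
        rw [← h4]
        exact congrArg _ h1
      simp at h3
  exact ⟨X, inferInstance, Θ, hinj, hright⟩

variable {C : ∀ (G : Type) [Group G], Prop}

theorem ker_of_sd (hC : ExtCl C) {G P X : Type} [Group G] [Group P] [MulAction P X]
    (Θ : G →* FreeGroup X ⋊[permAut X P] P) (hΘ : Function.Injective Θ) (f : G →* P)
    (hr : ∀ g, (Θ g).right = f g) : C f.ker := by
  refine hC.sub _ (FreeGroup X)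
    { toFun := fun g => (Θ g.1).left
      map_one' := by
        show (Θ 1).left = 1
        rw [map_one]
        rfl
      map_mul' := fun g h => ?_ } ?_ (freeX hC X)
  · show (Θ (g.1 * h.1)).left = _
    rw [map_mul, SemidirectProduct.mul_left, hr]
    have h1 : f g.1 = 1 := g.2
    rw [h1, map_one]
    rfl
  · intro g h hgh
    apply Subtype.ext
    apply hΘ
    apply SemidirectProduct.ext
    · exact hgh
    · have h1 : f g.1 = 1 := g.2
      have h2 : f h.1 = 1 := h.2
      rw [hr, hr, h1, h2]

/-- the kernel is free if the homomorphism is injective on the factors -/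
theorem am_ker (hC : ExtCl C) {G P : Type} [Group G] [Group P] (A B K : Subgroup G)
    (hamg : Amg A B K) (f : G →* P) (hfA : ∀ a ∈ A, f a = 1 → a = 1)
    (hfB : ∀ b ∈ B, f b = 1 → b = 1) : C f.ker := by
  obtain ⟨X, _, Θ, h1, h2⟩ := am_emb G P A B K hamg f hfA hfB
  exact ker_of_sd hC Θ h1 f h2

theorem hnn_ker (hC : ExtCl C) {M P : Type} [Group M] [Group P] (A B : Subgroup M) (φ : A ≃* B)
    (f : HNNExtension M A B φ →* P) (hf : Function.Injective (f.comp HNNExtension.of)) :
    C f.ker :=
  ker_of_sd hC (Pool.Agent.R779.FJ.Th A B φ f) (Pool.Agent.R779.FJ.Th_injective A B φ f hf) f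
    (Pool.Agent.R779.FJ.Th_right A B φ f)

theorem ker2_le {G Q : Type} [Group G] [Group Q] (A B : Subgroup G) (f : G →* Q) :
    Subgroup.normalClosure (ker2 A B f) ≤ f.ker :=
  Subgroup.normalClosure_le_normal fun _ hx => hx.2

theorem quot_mem {G Q : Type} [Group G] [Group Q] (hC : ExtCl C)
    (A B K : Subgroup G) (hamg : Amg A B K) (f : G →* Q) :
    C (QuotientGroup.lift (Subgroup.normalClosure (ker2 A B f)) f (ker2_le A B f)).ker := by
  set R := Subgroup.normalClosure (ker2 A B f) with hR
  have hRf : R ≤ f.ker := Subgroup.normalClosure_le_normal fun x hx => hx.2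
  let π := QuotientGroup.mk' R
  have hπ : ∀ x, (x ∈ A ∨ x ∈ B) → f x = 1 → π x = 1 := by
    intro x hx hfx
    exact (QuotientGroup.eq_one_iff x).2 (Subgroup.subset_normalClosure ⟨hx, hfx⟩)
  have ham : Amg (A.map π) (B.map π) (K.map π) := by
    refine ⟨Subgroup.map_mono hamg.le_left, Subgroup.map_mono hamg.le_right, ?_, ?_⟩
    · rw [← Subgroup.map_sup, hamg.gen]
      exact Subgroup.map_top_of_surjective π (QuotientGroup.mk'_surjective R)
    · intro H _ u v huv
      let iA : A →* A.map π := π.subgroupMap A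
      let iB : B →* B.map π := π.subgroupMap B
      obtain ⟨h, hA, hB⟩ := hamg.univ H (u.comp iA) (v.comp iB) (by
        intro c hc
        exact huv (π c) ⟨c, hc, rfl⟩)
      have hker : R ≤ h.ker := by
        refine Subgroup.normalClosure_le_normal ?_
        rintro x ⟨hx | hx, hfx⟩
        · show h x = 1
          have h1 : h x = u (iA ⟨x, hx⟩) := hA ⟨x, hx⟩
          have h2 : iA ⟨x, hx⟩ = 1 := Subtype.ext (hπ x (Or.inl hx) hfx)
          rw [h1, h2, map_one]
        · show h x = 1
          have h1 : h x = v (iB ⟨x, hx⟩) := hB ⟨x, hx⟩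
          have h2 : iB ⟨x, hx⟩ = 1 := Subtype.ext (hπ x (Or.inr hx) hfx)
          rw [h1, h2, map_one]
      refine ⟨QuotientGroup.lift R h hker, ?_, ?_⟩
      · rintro ⟨_, a, ha, rfl⟩
        exact hA ⟨a, ha⟩
      · rintro ⟨_, b, hb, rfl⟩
        exact hB ⟨b, hb⟩
  refine am_ker hC _ _ _ ham (QuotientGroup.lift R f hRf) ?_ ?_
  · rintro _ ⟨a, ha, rfl⟩ h
    exact hπ a (Or.inl ha) h
  · rintro _ ⟨b, hb, rfl⟩ h
    exact hπ b (Or.inr hb) h

/-- a homomorphism to a wreath product which is injective on the first factor -/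
theorem side {G Q : Type} [Group G] [Group Q] (A B K : Subgroup G)
    (hamg : Amg A B K) (f : G →* Q) (hK : ∀ k ∈ K, f k = 1 → k = 1) :
    ∃ (V : Type) (Φ : G →* Wr V A), (∀ a ∈ A, Φ a = 1 → a = 1) ∧
      ∀ x ∈ ker2 A B f, Φ x ∈ FS V A (f.comp A.subtype).ker := by
  let fK : K →* Q := f.comp K.subtype
  have hfK : Function.Injective fK := by
    rw [injective_iff_map_eq_one]
    intro k hk
    exact Subtype.ext (hK k k.2 hk)
  let K' : Subgroup Q := fK.range
  let e : K ≃* K' := MonoidHom.ofInjective hfK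
  have he : ∀ k : K, ((e k : K') : Q) = f k := fun k => rfl
  let j : K' →* A := (Subgroup.inclusion hamg.le_left).comp e.symm.toMonoidHom
  have hj : ∀ k : K, j (e k) = ⟨k, hamg.le_left k.2⟩ := by
    intro k
    show Subgroup.inclusion hamg.le_left (e.symm (e k)) = _
    rw [MulEquiv.symm_apply_apply]
    rfl
  let ψ : Q →* Wr (Ys K') A := psi K' j
  let ΦA : A →* Wr (Option (Ys K')) A := opt (MonoidHom.id A) (ψ.comp (f.comp A.subtype))
  let ΦB : B →* Wr (Option (Ys K')) A := (Pool.Agent.R665.FJ.trans (hotel K')).comp (ψ.comp (f.comp B.subtype))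
  obtain ⟨Φ, hΦA, hΦB⟩ := hamg.univ (Wr (Option (Ys K')) A) ΦA ΦB (by
    intro c hc
    have hk : f c = ((e ⟨c, hc⟩ : K') : Q) := rfl
    have hjk : j (e ⟨c, hc⟩) = ⟨c, hamg.le_left hc⟩ := hj ⟨c, hc⟩
    apply Wr.ext
    · funext o
      rcases o with _ | y
      · show (⟨c, hamg.le_left hc⟩ : A) = cv K' j (f c) (hotel K' none).1
        rw [hotel_none, hk, cv_base, hjk]
      · show cv K' j (f c) y.1 = cv K' j (f c) (hotel K' (some y)).1
        rw [hotel_fst]
    · apply Equiv.ext
      intro o
      rcases o with _ | y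
      · show none = (hotel K').symm (f c • (hotel K' none).1, (hotel K' none).2)
        rw [Equiv.eq_symm_apply, hotel_none, hk, smul_base]
      · show some (f c • y.1, y.2) =
          (hotel K').symm (f c • (hotel K' (some y)).1, (hotel K' (some y)).2)
        rw [Equiv.eq_symm_apply, hk]
        exact hotel_smul K' (e ⟨c, hc⟩) y)
  refine ⟨Option (Ys K'), Φ, ?_, ?_⟩
  · intro a ha h
    have h2 : Φ a = ΦA ⟨a, ha⟩ := hΦA ⟨a, ha⟩
    have h3 : (ΦA ⟨a, ha⟩).s none = 1 := by rw [← h2, h]; rfl
    exact congrArg Subtype.val h3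
  · rintro x ⟨hx | hx, hfx⟩
    · have h1 : Φ x = ΦA ⟨x, hx⟩ := hΦA ⟨x, hx⟩
      have h2 : ψ (f x) = 1 := by rw [hfx, map_one]
      rw [h1]
      refine ⟨?_, ?_, {none}, Set.finite_singleton _, ?_⟩
      · apply Equiv.ext
        intro o
        rcases o with _ | y
        · rfl
        · show some ((ψ (f x)).p y) = some y
          rw [h2]; rfl
      · intro o
        rcases o with _ | y
        · exact hfx
        · have h3 : (ΦA ⟨x, hx⟩).s (some y) = 1 := by
            show (ψ (f x)).s y = 1
            rw [h2]; rfl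
          rw [h3]
          exact one_mem _
      · intro o ho
        rcases o with _ | y
        · exact absurd rfl ho
        · show (ψ (f x)).s y = 1
          rw [h2]; rfl
    · have h1 : Φ x = ΦB ⟨x, hx⟩ := hΦB ⟨x, hx⟩
      have h2 : ΦB ⟨x, hx⟩ = 1 := by
        show Pool.Agent.R665.FJ.trans (hotel K') (ψ (f x)) = 1
        rw [hfx, map_one, map_one]
      rw [h1, h2]
      exact one_mem _

/-- **amalgamated products**: if `f` is injective on the amalgamated subgroup and the kernels of its
restrictions to the factors are in the class, then so is its kernel -/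
theorem am (hC : ExtCl C) {G Q : Type} [Group G] [Group Q] (A B K : Subgroup G)
    (hamg : Amg A B K) (f : G →* Q) (hK : ∀ k ∈ K, f k = 1 → k = 1)
    (hA : C (f.comp A.subtype).ker) (hB : C (f.comp B.subtype).ker) : C f.ker := by
  obtain ⟨V, Φ, hΦ, hΦR⟩ := side A B K hamg f hK
  obtain ⟨U, Ψ, hΨ, hΨR⟩ := side B A K (Amg.symm hamg) f hK
  set R := Subgroup.normalClosure (ker2 A B f) with hR
  have hRf : R ≤ f.ker := ker2_le A B f
  have hRΦ : R ≤ (FS V A (f.comp A.subtype).ker).comap Φ := by
    have := FS_normal V A (f.comp A.subtype).ker inferInstance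
    exact Subgroup.normalClosure_le_normal fun x hx => hΦR x hx
  have hRΨ : R ≤ (FS U B (f.comp B.subtype).ker).comap Ψ := by
    have := FS_normal U B (f.comp B.subtype).ker inferInstance
    exact Subgroup.normalClosure_le_normal fun x hx => hΨR x ⟨hx.1.symm, hx.2⟩
  -- the kernel of the map to both wreath products and the quotient
  let F : G →* (Wr V A × Wr U B) × (G ⧸ R) := (Φ.prod Ψ).prod (QuotientGroup.mk' R)
  have hF : C F.ker := am_ker hC A B K hamg F
    (fun a ha h => hΦ a ha (congrArg (fun x => x.1.1) h))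
    (fun b hb h => hΨ b hb (congrArg (fun x => x.1.2) h))
  -- `R`
  have hRC : C R := by
    let π : R →* (FS V A (f.comp A.subtype).ker × FS U B (f.comp B.subtype).ker) :=
      ((Φ.comp R.subtype).codRestrict _ fun x => hRΦ x.2).prod
        ((Ψ.comp R.subtype).codRestrict _ fun x => hRΨ x.2)
    refine ext_hom hC π ?_ (prod hC (FS_mem hC V A _ hA) (FS_mem hC U B _ hB))
    refine hC.sub _ F.ker
      { toFun := fun x => ⟨x.1.1, ?_⟩
        map_one' := rfl
        map_mul' := fun _ _ => rfl } ?_ hF
    · have h1 : π x.1 = 1 := x.2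
      have h2 : Φ x.1.1 = 1 := congrArg (fun z => z.1.1) h1
      have h3 : Ψ x.1.1 = 1 := congrArg (fun z => z.2.1) h1
      have h4 : QuotientGroup.mk' R x.1.1 = 1 := (QuotientGroup.eq_one_iff _).2 x.1.2
      show F x.1.1 = 1
      exact Prod.ext (Prod.ext h2 h3) h4
    · intro x y h
      exact Subtype.ext (Subtype.ext (congrArg (fun z : F.ker => (z : G)) h))
  -- the kernel
  let ρ : f.ker →* (QuotientGroup.lift R f hRf).ker :=
    ((QuotientGroup.mk' R).comp f.ker.subtype).codRestrict _ fun x => x.2
  refine ext_hom hC ρ ?_ (quot_mem hC A B K hamg f)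
  refine hC.sub _ R
    { toFun := fun x => ⟨x.1.1, (QuotientGroup.eq_one_iff _).1 (congrArg Subtype.val x.2)⟩
      map_one' := rfl
      map_mul' := fun _ _ => rfl } ?_ hRC
  intro x y h
  exact Subtype.ext (Subtype.ext (congrArg (fun z : R => (z : G)) h))

end Pool.Agent.R779.BC
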