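import Pool.Agent.R779.BC.Thm
import Pool.Agent.R665.Art.Fin

/-!
# Artin groups in classes closed under subgroups, directed unions and extensions
-/

set_option autoImplicit false

namespace Pool.Agent.R779.BC

open Pool.Agent.Helper741 Pool.Agent.R630.FJ Pool.Agent.R665.Art
open Pool.Agent.R941.BC (Inherit W El W_sub W_union W_ext W_over W_le)

variable {C : ∀ (G : Type) [Group G], Prop}

/-- finite-valued functions extended by a group of the class -/
theorem fv_mem (hC : ExtCl C) {Ω A Q : Type} [Group A] [Group Q] (ρ : Q →* Equiv.Perm Ω)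
    (hA : C A) (hQ : C Q) : C (FV ρ A) := by
  classical
  let pr : FV ρ A →* Q := (SemidirectProduct.rightHom).comp (FV ρ A).subtype
  refine ext_hom hC pr ?_ hQ
  let e : pr.ker →* (Ω → A) :=
    { toFun := fun x => ((x : FV ρ A) : FW ρ A).left
      map_one' := rfl
      map_mul' := by
        intro x y
        have h1 : ((x : FV ρ A) : FW ρ A).right = 1 := x.2
        show (((x : FV ρ A) : FW ρ A) * ((y : FV ρ A) : FW ρ A)).left = _
        rw [SemidirectProduct.mul_left, h1, map_one]
        rfl }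
  have he : Function.Injective e := by
    intro x y hxy
    apply Subtype.ext
    apply Subtype.ext
    refine SemidirectProduct.ext hxy ?_
    have h1 : ((x : FV ρ A) : FW ρ A).right = 1 := x.2
    have h2 : ((y : FV ρ A) : FW ρ A).right = 1 := y.2
    rw [h1, h2]
  have hfin : ∀ x, (Set.range (e x)).Finite := fun x => (x : FV ρ A).2
  refine hC.union _ fun L hL => ?_
  obtain ⟨E, hE⟩ := hL
  let F : Ω → (E → A) := fun ω x => e x.1 ω
  have hF : (Set.range F).Finite := by
    refine Set.Finite.subset (Set.Finite.pi' fun x : E => hfin x.1) ?_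
    rintro _ ⟨ω, rfl⟩ x
    exact ⟨ω, rfl⟩
  have : Finite (Set.range F) := hF
  have hconst : ∀ y ∈ L, ∀ ω ω' : Ω, F ω = F ω' → e y ω = e y ω' := by
    intro y hy
    rw [← hE] at hy
    induction hy using Subgroup.closure_induction with
    | mem x hx => intro ω ω' h; exact congrFun h ⟨x, hx⟩
    | one => intro ω ω' _; rw [map_one]; rfl
    | mul x y _ _ hx hy =>
      intro ω ω' h
      rw [map_mul, Pi.mul_apply, Pi.mul_apply, hx ω ω' h, hy ω ω' h]
    | inv x _ hx =>
      intro ω ω' h
      rw [map_inv, Pi.inv_apply, Pi.inv_apply, hx ω ω' h]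
  refine hC.sub _ (Set.range F → A)
    { toFun := fun y r => e y.1 r.2.choose
      map_one' := by
        funext r
        show e 1 _ = 1
        rw [map_one]
        rfl
      map_mul' := fun x y => by
        funext r
        show e (x.1 * y.1) _ = _
        rw [map_mul]
        rfl } ?_ (pi_fin hC hA _)
  intro x y hxy
  apply Subtype.ext
  apply he
  funext ω
  have h1 : e x.1 (⟨ω, rfl⟩ : ∃ ω', F ω' = F ω).choose = e y.1 (⟨ω, rfl⟩ : ∃ ω', F ω' = F ω).choose :=
    congrFun hxy ⟨F ω, ω, rfl⟩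
  have h2 : F (⟨ω, rfl⟩ : ∃ ω', F ω' = F ω).choose = F ω :=
    (⟨ω, rfl⟩ : ∃ ω', F ω' = F ω).choose_spec
  rw [← hconst x.1 x.2 _ _ h2, ← hconst y.1 y.2 _ _ h2]
  exact h1

theorem C_equiv (hC : ExtCl C) {B₁ B₂ : Type}
    {M₁ : CoxeterMatrix B₁} {M₂ : CoxeterMatrix B₂} (e : B₁ ≃ B₂)
    (h : ∀ i j, M₂ (e i) (e j) = M₁ i j) (h2 : C (Artin M₂)) : C (Artin M₁) :=
  hC.sub _ _ (eqvA e h).toMonoidHom (eqvA e h).injective h2

theorem C_sub (hC : ExtCl C) {B : Type}
    (M : CoxeterMatrix B) (T : Set B) (T' : Set T)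
    (h : C (Artin (subM M (Subtype.val '' T')))) : C (Artin (subM (subM M T) T')) :=
  C_equiv hC (Equiv.Set.image Subtype.val T' Subtype.val_injective) (fun _ _ => rfl) h

theorem fin_mem (hC : ExtCl C)
    (hW : ∀ (B : Type) [Finite B] (M : CoxeterMatrix B), C M.Group) (n : ℕ) :
    ∀ (B : Type) [Fintype B] (M : CoxeterMatrix B), Fintype.card B = n →
      (∀ T : Set B, (∀ i ∈ T, ∀ j ∈ T, M i j ≠ 0) → C (Artin (subM M T))) → C (Artin M) := by
  classical
  induction n using Nat.strong_induction_on with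
  | _ n ih =>
    intro B _ M hn hT
    by_cases h0 : ∀ i j, M i j ≠ 0
    · exact C_equiv hC (Equiv.Set.univ B).symm (fun _ _ => rfl)
        (hT Set.univ (fun i _ j _ => h0 i j))
    · push Not at h0
      obtain ⟨x, y, hxy⟩ := h0
      have key : ∀ (b : B) (X : Set B), b ∉ X → C (Artin (subM M X)) := by
        intro b X hb
        refine ih (Fintype.card X) ?_ X (subM M X) rfl ?_
        · rw [← hn]
          exact Fintype.card_subtype_lt hb
        · intro T' hT'
          apply C_sub hC
          apply hT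
          rintro _ ⟨i, hi, rfl⟩ _ ⟨j, hj, rfl⟩
          exact hT' i hi j hj
      have hX := key x {b | b ≠ x} (fun h => h rfl)
      have hY := key y {b | b ≠ y} (fun h => h rfl)
      have hK := key x {b | b ≠ x ∧ b ≠ y} (fun h => h.1 rfl)
      have hr : ∀ X : Set B, C (Artin (subM M X)) → C ↥(incl M X).range := by
        intro X h
        exact hC.sub _ _
          (MonoidHom.ofInjective (incl_inj M X)).symm.toMonoidHom (MulEquiv.injective _) h
      refine ext_hom hC (Phi M {b | b ≠ x ∧ b ≠ y}) ?_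
        (fv_mem hC (rho M {b | b ≠ x ∧ b ≠ y}) hK (hW B M))
      refine am hC _ _ _ (Pool.Agent.R665.Art.amg M x y hxy) _ (fun k hk h => Phi_inj M _ k hk h)
        ?_ ?_
      · exact hC.sub _ _ (Subgroup.subtype _) Subtype.val_injective (hr _ hX)
      · exact hC.sub _ _ (Subgroup.subtype _) Subtype.val_injective (hr _ hY)

theorem artin_mem (hC : ExtCl C)
    (hW : ∀ (B : Type) [Finite B] (M : CoxeterMatrix B), C M.Group) {B : Type}
    (M : CoxeterMatrix B)
    (h : ∀ T : Finset B, (∀ i ∈ T, ∀ j ∈ T, M i j ≠ 0) → C (Artin (subM M (T : Set B)))) :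
    C (Artin M) := by
  classical
  refine hC.union _ fun L hL => ?_
  have : Nonempty (Finset B) := ⟨∅⟩
  have hinc : ∀ i j : Finset B, i ⊆ j → (incl M (i : Set B)).range ≤ (incl M (j : Set B)).range := by
    intro i j hij
    rintro _ ⟨x, rfl⟩
    exact ⟨fm M hij x, incl_fm M hij x⟩
  obtain ⟨T, hT⟩ := fg_le (fun T : Finset B => (incl M (T : Set B)).range)
    (fun i j => ⟨i ∪ j, hinc _ _ Finset.subset_union_left, hinc _ _ Finset.subset_union_right⟩)
    (fun g => by
      obtain ⟨i, x, rfl⟩ := exists_fin M g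
      exact ⟨i, x, rfl⟩) L hL
  refine hC.sub _ _ (Subgroup.inclusion hT) (Subgroup.inclusion_injective hT)
    (hC.sub _ _ (MonoidHom.ofInjective (incl_inj' M (T : Set B))).symm.toMonoidHom
      (MulEquiv.injective _) ?_)
  refine fin_mem hC hW _ (T : Set B) (subM M (T : Set B)) rfl ?_
  intro T' hT'
  apply C_sub hC
  have hf : ((Subtype.val '' T' : Set B)).Finite :=
    Set.Finite.subset T.finite_toSet (by
      rintro _ ⟨t, -, rfl⟩
      exact t.2)
  obtain ⟨S, hS⟩ := hf.exists_finset_coe
  rw [← hS]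
  apply h
  intro i hi j hj
  have hi' : i ∈ (Subtype.val '' T' : Set B) := by rw [← hS]; exact hi
  have hj' : j ∈ (Subtype.val '' T' : Set B) := by rw [← hS]; exact hj
  obtain ⟨i', hi1, rfl⟩ := hi'
  obtain ⟨j', hj1, rfl⟩ := hj'
  exact hT' i' hi1 j' hj1

theorem artin_iff (hC : ExtCl C)
    (hW : ∀ (B : Type) [Finite B] (M : CoxeterMatrix B), C M.Group) {V : Type}
    (M : CoxeterMatrix V) :
    C (Artin M) ↔ ∀ T : Finset V, (∀ i ∈ T, ∀ j ∈ T, M i j ≠ 0) →
      C ↥(Subgroup.closure (Artin.gen M '' (T : Set V))) := by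
  constructor
  · intro h T _
    exact hC.sub _ _ (Subgroup.subtype _) Subtype.val_injective h
  · intro h
    refine artin_mem hC hW M fun T hT => ?_
    have h1 := h T hT
    rw [← range_incl] at h1
    exact hC.sub _ _ (MonoidHom.ofInjective (incl_inj' M _)).toMonoidHom (MulEquiv.injective _) h1

end Pool.Agent.R779.BC
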