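import Pool.Agent.R941.BC.El
import Pool.Agent.R665.FJ.Hn

/-!
# Classes of groups closed under subgroups, directed unions and extensions
-/

set_option autoImplicit false

namespace Pool.Agent.R779.BC

open Pool.Agent.Y110.FJ
open Pool.Agent.Y462.SS (Wr)
open Pool.Agent.R665.FJ

/-- A class of groups closed under subgroups, directed unions and extensions which contains the
free groups. -/
structure ExtCl (C : ∀ (G : Type) [Group G], Prop) : Prop where
  sub : ∀ (G H : Type) [Group G] [Group H] (f : G →* H), Function.Injective f → C H → C G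
  union : ∀ (G : Type) [Group G], (∀ L : Subgroup G, L.FG → C L) → C G
  ext : ∀ (G : Type) [Group G] (N : Subgroup G) [N.Normal], C N → C (G ⧸ N) → C G
  free : C (FreeGroup ℕ)

variable {C : ∀ (G : Type) [Group G], Prop}

theorem ext_hom (hC : ExtCl C) {G Q : Type} [Group G] [Group Q] (π : G →* Q) (hk : C π.ker)
    (hQ : C Q) : C G :=
  hC.ext G π.ker hk (hC.sub _ Q (QuotientGroup.kerLift π) (QuotientGroup.kerLift_injective π) hQ)

theorem prod (hC : ExtCl C) {G H : Type} [Group G] [Group H] (hG : C G) (hH : C H) : C (G × H) := by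
  refine ext_hom hC (MonoidHom.snd G H) (hC.sub _ G ((MonoidHom.fst G H).comp (Subgroup.subtype _))
    ?_ hG) hH
  rintro ⟨⟨a, b⟩, hb⟩ ⟨⟨a', b'⟩, hb'⟩ h
  have hb1 : b = 1 := hb
  have hb2 : b' = 1 := hb'
  have h1 : a = a' := h
  subst h1 hb1 hb2
  rfl

theorem triv (hC : ExtCl C) (G : Type) [Group G] [Subsingleton G] : C G :=
  hC.sub G (FreeGroup ℕ) 1 (fun _ _ _ => Subsingleton.elim _ _) hC.free

theorem pi_fin (hC : ExtCl C) {A : Type} [Group A] (hA : C A) (T : Type) [Finite T] :
    C (T → A) := by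
  induction T using Finite.induction_empty_option with
  | @of_equiv X Y e ih =>
    have := ih
    refine hC.sub _ (X → A)
      { toFun := fun u x => u (e x)
        map_one' := rfl
        map_mul' := fun _ _ => rfl } ?_ ih
    intro u v h
    funext y
    obtain ⟨x, rfl⟩ := e.surjective y
    exact congrFun h x
  | h_empty => exact triv hC _
  | @h_option X _ ih =>
    refine hC.sub _ (A × (X → A))
      { toFun := fun u => (u none, fun x => u (some x))
        map_one' := rfl
        map_mul' := fun _ _ => rfl } ?_ (prod hC hA ih)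
    intro u v h
    funext o
    cases o with
    | none => exact congrArg Prod.fst h
    | some x => exact congrFun (congrArg Prod.snd h) x

/-- every element of a free group is a word in finitely many letters -/
theorem exists_letters {X : Type} (x : FreeGroup X) :
    ∃ F : Set X, F.Finite ∧ x ∈ (FreeGroup.map (Subtype.val : F → X)).range := by
  induction x using FreeGroup.induction_on with
  | C1 => exact ⟨∅, Set.finite_empty, one_mem _⟩
  | of x => exact ⟨{x}, Set.finite_singleton _, FreeGroup.of ⟨x, rfl⟩, by simp⟩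
  | inv_of x _ => exact ⟨{x}, Set.finite_singleton _, (FreeGroup.of ⟨x, rfl⟩)⁻¹, by simp⟩
  | mul x y hx hy =>
    obtain ⟨F, hF, a, ha⟩ := hx
    obtain ⟨F', hF', b, hb⟩ := hy
    refine ⟨F ∪ F', hF.union hF', ?_⟩
    refine mul_mem ⟨FreeGroup.map (fun z : F => (⟨z.1, Or.inl z.2⟩ : ↥(F ∪ F'))) a, ?_⟩
      ⟨FreeGroup.map (fun z : F' => (⟨z.1, Or.inr z.2⟩ : ↥(F ∪ F'))) b, ?_⟩
    · rw [← ha, FreeGroup.map.comp]
      rfl
    · rw [← hb, FreeGroup.map.comp]
      rfl

theorem map_inj {X Y : Type} (g : X → Y) (hg : Function.Injective g) :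
    Function.Injective (FreeGroup.map g) := by
  rcases isEmpty_or_nonempty X with hX | hX
  · intro a b _
    exact Subsingleton.elim a b
  · obtain ⟨h, hh⟩ := hg.hasLeftInverse
    refine Function.LeftInverse.injective (g := FreeGroup.map h) fun x => ?_
    rw [FreeGroup.map.comp]
    have : h ∘ g = id := funext hh
    rw [this, FreeGroup.map.id]

theorem freeX (hC : ExtCl C) (X : Type) : C (FreeGroup X) := by
  refine hC.union _ fun L hL => ?_
  obtain ⟨E, hE⟩ := hL
  choose F hF hx using fun x : FreeGroup X => exists_letters x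
  let T : Set X := ⋃ x ∈ (E : Set (FreeGroup X)), F x
  have hT : T.Finite := Set.Finite.biUnion E.finite_toSet fun x _ => hF x
  have : Finite T := hT
  have hLT : L ≤ (FreeGroup.map (Subtype.val : T → X)).range := by
    rw [← hE, Subgroup.closure_le]
    intro x hxE
    obtain ⟨a, ha⟩ := hx x
    refine ⟨FreeGroup.map (fun z : F x => (⟨z.1, Set.mem_biUnion hxE z.2⟩ : T)) a, ?_⟩
    rw [FreeGroup.map.comp]
    exact ha
  obtain ⟨k, ⟨e⟩⟩ := Finite.exists_equiv_fin T
  have hi : Function.Injective (FreeGroup.map (Subtype.val : T → X)) :=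
    map_inj _ Subtype.val_injective
  have h1 : C (FreeGroup T) := hC.sub _ (FreeGroup ℕ) (FreeGroup.map (fun t => ((e t : Fin k) : ℕ)))
    (map_inj _ fun a b h => e.injective (Fin.ext h)) hC.free
  have h2 : C (FreeGroup.map (Subtype.val : T → X)).range :=
    hC.sub _ (FreeGroup T) (MonoidHom.ofInjective hi).symm.toMonoidHom
      (MonoidHom.ofInjective hi).symm.injective h1
  exact hC.sub _ _ (Subgroup.inclusion hLT) (Subgroup.inclusion_injective hLT) h2

/-- finitely supported functions with values in `A0` -/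
def FS (V A : Type) [Group A] (A0 : Subgroup A) : Subgroup (Wr V A) where
  carrier := {x | x.p = 1 ∧ (∀ v, x.s v ∈ A0) ∧ ∃ T : Set V, T.Finite ∧ ∀ v, v ∉ T → x.s v = 1}
  one_mem' := ⟨rfl, fun _ => one_mem _, ∅, Set.finite_empty, fun _ _ => rfl⟩
  mul_mem' := by
    rintro a b ⟨ha, ha0, T, hT, ha'⟩ ⟨hb, hb0, U, hU, hb'⟩
    refine ⟨by simp [ha, hb], fun v => ?_, T ∪ U, hT.union hU, fun v hv => ?_⟩
    · simp only [Wr.mul_s]
      exact mul_mem (ha0 _) (hb0 _)
    · simp [hb, ha' v fun h => hv (Or.inl h), hb' v fun h => hv (Or.inr h)]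
  inv_mem' := by
    rintro a ⟨ha, ha0, T, hT, ha'⟩
    refine ⟨by simp [ha], fun v => ?_, T, hT, fun v hv => ?_⟩
    · simp only [Wr.inv_s]
      exact inv_mem (ha0 _)
    · simp [ha, ha' v hv]

theorem FS_normal (V A : Type) [Group A] (A0 : Subgroup A) (hA0 : A0.Normal) : (FS V A A0).Normal := by
  refine ⟨?_⟩
  rintro a ⟨ha, ha0, T, hT, hT'⟩ g
  refine ⟨conj_p _ _ ha, fun v => ?_, g.p '' T, hT.image _, fun v hv => ?_⟩
  · have h1 : v = g.p (g.p.symm v) := by simp
    rw [h1, conj_s _ _ ha]
    exact hA0.conj_mem _ (ha0 _) _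
  · have h1 : v = g.p (g.p.symm v) := by simp
    rw [h1, conj_s _ _ ha, hT', mul_one, mul_inv_cancel]
    intro h2
    exact hv ⟨_, h2, by simp⟩

theorem FS_mem (hC : ExtCl C) (V A : Type) [Group A] (A0 : Subgroup A) (hA : C A0) :
    C (FS V A A0) := by
  refine hC.union _ fun L hL => ?_
  obtain ⟨E, hE⟩ := hL
  choose T0 hT0 hT0' using fun x : FS V A A0 => x.2.2.2
  let T : Set V := ⋃ x ∈ (E : Set (FS V A A0)), T0 x
  have hT : T.Finite := Set.Finite.biUnion E.finite_toSet fun x _ => hT0 x
  have : Finite T := hT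
  have hLT : ∀ x : FS V A A0, x ∈ L → ∀ v, v ∉ T → x.1.s v = 1 := by
    intro x hx
    rw [← hE] at hx
    induction hx using Subgroup.closure_induction with
    | mem x hx =>
      intro v hv
      exact hT0' x v fun h => hv (Set.mem_biUnion hx h)
    | one => intro v _; rfl
    | mul x y _ _ hx hy =>
      intro v hv
      show (x.1 * y.1).s v = 1
      simp [y.2.1, hx v hv, hy v hv]
    | inv x _ hx =>
      intro v hv
      show (x.1⁻¹).s v = 1
      simp [x.2.1, hx v hv]
  refine hC.sub _ (T → A0)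
    { toFun := fun x t => ⟨x.1.1.s t, x.1.2.2.1 t⟩
      map_one' := rfl
      map_mul' := fun x y => ?_ } ?_ (pi_fin hC hA T)
  · funext t
    apply Subtype.ext
    show (x.1.1 * y.1.1).s t = x.1.1.s t * y.1.1.s t
    simp [y.1.2.1]
  · intro x y h
    apply Subtype.ext
    apply Subtype.ext
    apply Wr.ext
    · funext v
      by_cases hv : v ∈ T
      · exact congrArg Subtype.val (congrFun h ⟨v, hv⟩)
      · rw [hLT x.1 x.2 v hv, hLT y.1 y.2 v hv]
    · rw [x.1.2.1, y.1.2.1]

end Pool.Agent.R779.BC
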