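import Pool.Agent.R779.BC.Am

/-!
# Kernels of homomorphisms of HNN extensions which are injective on the associated subgroups
-/

set_option autoImplicit false

namespace Pool.Agent.R779.BC

open Pool.Agent.Y110.FJ
open Pool.Agent.Y462.SS (Wr)
open Pool.Agent.R665.FJ

variable {C : ∀ (G : Type) [Group G], Prop}

section hnn

variable {M Q : Type} [Group M] [Group Q] {A B : Subgroup M} {φ : A ≃* B}

open HNNExtension

theorem kerB_le (f : HNNExtension M A B φ →* Q) : Subgroup.normalClosure (kerB f) ≤ f.ker := by
  refine Subgroup.normalClosure_le_normal ?_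
  rintro _ ⟨m, rfl, hm⟩
  exact hm

theorem quot_hnn (hC : ExtCl C) (f : HNNExtension M A B φ →* Q)
    (hf : ∀ a ∈ A, f (of a) = 1 → a = 1) :
    C (QuotientGroup.lift (Subgroup.normalClosure (kerB f)) f (kerB_le f)).ker := by
  set R := Subgroup.normalClosure (kerB f) with hR
  let π := QuotientGroup.mk' R
  have hconj : ∀ a : A, f (of (φ a : M)) = f t * f (of (a : M)) * (f t)⁻¹ := by
    intro a
    rw [equiv_eq_conj]
    simp
  have hfB : ∀ b ∈ B, f (of b) = 1 → b = 1 := by
    intro b hb h
    have h1 := hconj (φ.symm ⟨b, hb⟩)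
    rw [MulEquiv.apply_symm_apply] at h1
    have h2 : f (of ((φ.symm ⟨b, hb⟩ : A) : M)) = 1 := by
      have h3 : f (of b) = f t * f (of ((φ.symm ⟨b, hb⟩ : A) : M)) * (f t)⁻¹ := h1
      rw [h] at h3
      have h4 := conj_eq_one_iff.1 h3.symm
      exact h4
    have h3 := hf _ (φ.symm ⟨b, hb⟩).2 h2
    have h4 : φ.symm ⟨b, hb⟩ = 1 := Subtype.ext h3
    have h5 : (⟨b, hb⟩ : B) = 1 := by
      rw [← φ.apply_symm_apply ⟨b, hb⟩, h4, map_one]
    exact congrArg Subtype.val h5
  -- the image of the base
  let u : M →* Q := f.comp of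
  let Mb : Subgroup Q := u.range
  let u' : M →* Mb := u.rangeRestrict
  have hinjA : Function.Injective (u'.comp A.subtype) := by
    rw [injective_iff_map_eq_one]
    intro a ha
    exact Subtype.ext (hf a a.2 (congrArg Subtype.val ha))
  have hinjB : Function.Injective (u'.comp B.subtype) := by
    rw [injective_iff_map_eq_one]
    intro b hb
    exact Subtype.ext (hfB b b.2 (congrArg Subtype.val hb))
  let Ab : Subgroup Mb := (u'.comp A.subtype).range
  let Bb : Subgroup Mb := (u'.comp B.subtype).range
  let eA : A ≃* Ab := MonoidHom.ofInjective hinjA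
  let eB : B ≃* Bb := MonoidHom.ofInjective hinjB
  let φb : Ab ≃* Bb := eA.symm.trans (φ.trans eB)
  have hφb : ∀ a : A, φb (eA a) = eB (φ a) := fun a => by
    show eB (φ (eA.symm (eA a))) = _
    rw [MulEquiv.symm_apply_apply]
  have heA : ∀ a : A, ((eA a : Ab) : Mb) = u' a := fun a => rfl
  have heB : ∀ b : B, ((eB b : Bb) : Mb) = u' b := fun b => rfl
  have hsA : ∀ x : Ab, ∃ a : A, eA a = x := fun x => eA.surjective x
  have hfb : ∀ x : Ab, f t * Mb.subtype (x : Mb) = Mb.subtype ((φb x : Bb) : Mb) * f t := by
    intro x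
    obtain ⟨a, rfl⟩ := hsA x
    rw [hφb, heA, heB]
    show f t * f (of (a : M)) = f (of (φ a : M)) * f t
    rw [hconj]
    group
  let fb : HNNExtension Mb Ab Bb φb →* Q := lift Mb.subtype (f t) hfb
  have hHN : C fb.ker := by
    refine hnn_ker hC Ab Bb φb fb ?_
    intro x y hxy
    have h1 : Mb.subtype x = Mb.subtype y := by
      have h2 : fb (of x) = fb (of y) := hxy
      rwa [show fb (of x) = Mb.subtype x from lift_of _ _ _ x,
        show fb (of y) = Mb.subtype y from lift_of _ _ _ y] at h2
    exact Subtype.ext h1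
  -- the homomorphism to the quotient
  have hk : ∀ m : M, f (of m) = 1 → π (of m) = 1 := by
    intro m hm
    exact (QuotientGroup.eq_one_iff _).2 (Subgroup.subset_normalClosure ⟨m, rfl, hm⟩)
  let v : Mb →* HNNExtension M A B φ ⧸ R :=
    u'.liftOfRightInverse (Function.surjInv u.rangeRestrict_surjective)
      (Function.rightInverse_surjInv u.rangeRestrict_surjective) ⟨π.comp of, by
        intro m hm
        exact hk m (congrArg Subtype.val hm)⟩
  have hv : ∀ m : M, v (u' m) = π (of m) := by
    intro m
    exact MonoidHom.liftOfRightInverse_comp_apply _ _ _ _ m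
  let w : HNNExtension Mb Ab Bb φb →* HNNExtension M A B φ ⧸ R := lift v (π t) (by
    intro x
    obtain ⟨a, rfl⟩ := hsA x
    rw [hφb, heA, heB, hv, hv, ← map_mul, ← map_mul, t_mul_of])
  let z : HNNExtension M A B φ →* HNNExtension Mb Ab Bb φb := lift (of.comp u') t (by
    intro a
    have h1 := t_mul_of (φ := φb) (eA a)
    rw [hφb] at h1
    exact h1)
  have hzR : R ≤ z.ker := by
    refine Subgroup.normalClosure_le_normal ?_
    rintro _ ⟨m, rfl, hm⟩
    show z (of m) = 1
    have h1 : z (of m) = of (u' m) := by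
      show lift (of.comp u') t _ (of m) = _
      rw [lift_of]; rfl
    have h2 : u' m = 1 := Subtype.ext hm
    rw [h1, h2, map_one]
  have hwz : w.comp z = π := by
    apply HNNExtension.hom_ext
    · ext m
      show w (z (of m)) = π (of m)
      have h1 : z (of m) = of (u' m) := by
        show lift (of.comp u') t _ (of m) = _
        rw [lift_of]; rfl
      have h2 : w (of (u' m)) = v (u' m) := by
        show lift v (π t) _ (of (u' m)) = _
        rw [lift_of]
      rw [h1, h2, hv]
    · show w (z t) = π t
      have h1 : z t = t := by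
        show lift (of.comp u') t _ t = _
        rw [lift_t]
      have h2 : w t = π t := by
        show lift v (π t) _ t = _
        rw [lift_t]
      rw [h1, h2]
  have hfz : ∀ g, fb (z g) = f g := by
    intro g
    have h1 : fb.comp z = f := by
      apply HNNExtension.hom_ext
      · ext m
        show fb (z (of m)) = f (of m)
        have h1 : z (of m) = of (u' m) := by
          show lift (of.comp u') t _ (of m) = _
          rw [lift_of]; rfl
        have h2 : fb (of (u' m)) = Mb.subtype (u' m) := lift_of _ _ _ _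
        rw [h1, h2]
        rfl
      · show fb (z t) = f t
        have h1 : z t = t := by
          show lift (of.comp u') t _ t = _
          rw [lift_t]
        rw [h1]
        show lift Mb.subtype (f t) _ t = _
        rw [lift_t]
    exact DFunLike.congr_fun h1 g
  refine hC.sub _ fb.ker
    { toFun := fun x => ⟨QuotientGroup.lift R z hzR x.1, ?_⟩
      map_one' := Subtype.ext (by
        show QuotientGroup.lift R z hzR 1 = 1
        rw [map_one])
      map_mul' := fun x y => Subtype.ext (by
        show QuotientGroup.lift R z hzR (x.1 * y.1) = _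
        rw [map_mul]
        rfl) } ?_ hHN
  · obtain ⟨g, hg⟩ := QuotientGroup.mk'_surjective R x.1
    have hx : QuotientGroup.lift R f (kerB_le f) x.1 = 1 := x.2
    rw [← hg] at hx ⊢
    show fb (z g) = 1
    rw [hfz]
    exact hx
  · intro x y hxy
    apply Subtype.ext
    have h0 : QuotientGroup.lift R z hzR x.1 = QuotientGroup.lift R z hzR y.1 :=
      congrArg (fun w : fb.ker => (w : HNNExtension Mb Ab Bb φb)) hxy
    obtain ⟨g, hg⟩ := QuotientGroup.mk'_surjective R x.1
    obtain ⟨g', hg'⟩ := QuotientGroup.mk'_surjective R y.1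
    rw [← hg, ← hg'] at h0 ⊢
    have h1 : z g = z g' := h0
    have h2 : ∀ g, π g = w (z g) := fun g => by rw [← hwz]; rfl
    show π g = π g'
    rw [h2, h2, h1]

/-- **HNN extensions** with a homomorphism which is injective on the associated subgroups -/
theorem hside (f : HNNExtension M A B φ →* Q) (hf : ∀ a ∈ A, f (of a) = 1 → a = 1) :
    ∃ (V : Type) (Φ : HNNExtension M A B φ →* Wr V M), (∀ m : M, Φ (of m) = 1 → m = 1) ∧
      ∀ x ∈ kerB f, Φ x ∈ FS V M (f.comp of).ker := by
  have hconj : ∀ a : A, f (of (φ a : M)) = f t * f (of (a : M)) * (f t)⁻¹ := by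
    intro a
    rw [equiv_eq_conj]
    simp
  have hfB : ∀ b ∈ B, f (of b) = 1 → b = 1 := by
    intro b hb h
    have h1 := hconj (φ.symm ⟨b, hb⟩)
    rw [MulEquiv.apply_symm_apply] at h1
    have h2 : f (of ((φ.symm ⟨b, hb⟩ : A) : M)) = 1 := by
      have h3 : f (of b) = f t * f (of ((φ.symm ⟨b, hb⟩ : A) : M)) * (f t)⁻¹ := h1
      rw [h] at h3
      have h4 := conj_eq_one_iff.1 h3.symm
      exact h4
    have h3 := hf _ (φ.symm ⟨b, hb⟩).2 h2
    have h4 : φ.symm ⟨b, hb⟩ = 1 := Subtype.ext h3
    have h5 : (⟨b, hb⟩ : B) = 1 := by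
      rw [← φ.apply_symm_apply ⟨b, hb⟩, h4, map_one]
    exact congrArg Subtype.val h5
  let u : M →* Q := f.comp of
  have hinjA : Function.Injective (u.comp A.subtype) := by
    rw [injective_iff_map_eq_one]
    intro a ha
    exact Subtype.ext (hf a a.2 ha)
  have hinjB : Function.Injective (u.comp B.subtype) := by
    rw [injective_iff_map_eq_one]
    intro b hb
    exact Subtype.ext (hfB b b.2 hb)
  let KA : Subgroup Q := (u.comp A.subtype).range
  let KB : Subgroup Q := (u.comp B.subtype).range
  let eA : A ≃* KA := MonoidHom.ofInjective hinjA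
  let eB : B ≃* KB := MonoidHom.ofInjective hinjB
  let jA : KA →* M := A.subtype.comp eA.symm.toMonoidHom
  let jB : KB →* M := B.subtype.comp eB.symm.toMonoidHom
  have hjA : ∀ a : A, jA (eA a) = a := by
    intro a
    show ((eA.symm (eA a) : A) : M) = a
    rw [MulEquiv.symm_apply_apply]
  have hjB : ∀ b : B, jB (eB b) = b := by
    intro b
    show ((eB.symm (eB b) : B) : M) = b
    rw [MulEquiv.symm_apply_apply]
  let ψ : Q →* Wr (Ys KA ⊕ Ys KB) M := sm (psi KA jA) (psi KB jB)
  let Φ0 : M →* Wr (Option (Ys KA ⊕ Ys KB)) M := opt (MonoidHom.id M) (ψ.comp u)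
  have hA : ∀ a : A, Φ0 a = Pool.Agent.R665.FJ.trans (hoL KA KB) (ψ (u a)) := by
    intro a
    have hk : u a = ((eA a : KA) : Q) := rfl
    apply Wr.ext
    · funext o
      rcases o with _ | y | y
      · show (a : M) = cv KA jA (u a) (hotel KA none).1
        rw [hotel_none, hk, cv_base, hjA]
      · show cv KA jA (u a) y.1 = cv KA jA (u a) (hotel KA (some y)).1
        rw [hotel_fst]
      · rfl
    · apply Equiv.ext
      intro o
      rcases o with _ | y | y
      · show none = (hoL KA KB).symm (Sum.inl (u a • (hotel KA none).1, (hotel KA none).2))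
        rw [Equiv.eq_symm_apply, hotel_none, hk, smul_base]
        rfl
      · show some (Sum.inl (u a • y.1, y.2)) = (hoL KA KB).symm
          (Sum.inl (u a • (hotel KA (some y)).1, (hotel KA (some y)).2))
        rw [Equiv.eq_symm_apply, hk]
        exact congrArg Sum.inl (hotel_smul KA (eA a) y)
      · show some (Sum.inr (u a • y.1, y.2)) = (hoL KA KB).symm (Sum.inr (u a • y.1, y.2))
        rw [Equiv.eq_symm_apply]
        rfl
  have hB : ∀ b : B, Φ0 b = Pool.Agent.R665.FJ.trans (hoR KA KB) (ψ (u b)) := by
    intro b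
    have hk : u b = ((eB b : KB) : Q) := rfl
    apply Wr.ext
    · funext o
      rcases o with _ | y | y
      · show (b : M) = cv KB jB (u b) (hotel KB none).1
        rw [hotel_none, hk, cv_base, hjB]
      · rfl
      · show cv KB jB (u b) y.1 = cv KB jB (u b) (hotel KB (some y)).1
        rw [hotel_fst]
    · apply Equiv.ext
      intro o
      rcases o with _ | y | y
      · show none = (hoR KA KB).symm (Sum.inr (u b • (hotel KB none).1, (hotel KB none).2))
        rw [Equiv.eq_symm_apply, hotel_none, hk, smul_base]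
        rfl
      · show some (Sum.inl (u b • y.1, y.2)) = (hoR KA KB).symm (Sum.inl (u b • y.1, y.2))
        rw [Equiv.eq_symm_apply]
        rfl
      · show some (Sum.inr (u b • y.1, y.2)) = (hoR KA KB).symm
          (Sum.inr (u b • (hotel KB (some y)).1, (hotel KB (some y)).2))
        rw [Equiv.eq_symm_apply, hk]
        exact congrArg Sum.inr (hotel_smul KB (eB b) y)
  let Φ : HNNExtension M A B φ →* Wr (Option (Ys KA ⊕ Ys KB)) M :=
    lift Φ0 (tr2 (hoL KA KB) (hoR KA KB) (ψ (f t))) (by
      intro a
      rw [hA, hB, tr2_mul, mul_tr2, ← map_mul, ← map_mul]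
      congr 2
      show f t * f (of (a : M)) = f (of (φ a : M)) * f t
      rw [hconj]
      group)
  refine ⟨Option (Ys KA ⊕ Ys KB), Φ, ?_, ?_⟩
  · intro m h1
    have h2 : Φ (of m) = Φ0 m := lift_of _ _ _ m
    have h3 : (Φ0 m).s none = 1 := by rw [← h2, h1]; rfl
    exact h3
  · rintro _ ⟨m, rfl, hm⟩
    have h1 : Φ (of m) = Φ0 m := lift_of _ _ _ m
    have h2 : ψ (u m) = 1 := by
      have : u m = 1 := hm
      rw [this, map_one]
    rw [h1]
    refine ⟨?_, ?_, {none}, Set.finite_singleton _, ?_⟩
    · apply Equiv.ext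
      intro o
      rcases o with _ | y
      · rfl
      · show some ((ψ (u m)).p y) = some y
        rw [h2]; rfl
    · intro o
      rcases o with _ | y
      · exact hm
      · have h3 : (Φ0 m).s (some y) = 1 := by
          show (ψ (u m)).s y = 1
          rw [h2]; rfl
        rw [h3]
        exact one_mem _
    · intro o ho
      rcases o with _ | y
      · exact absurd rfl ho
      · show (ψ (u m)).s y = 1
        rw [h2]; rfl

/-- **HNN extensions**: if `f` is injective on the associated subgroups and the kernel of its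
restriction to the base is in the class, then so is its kernel -/
theorem hn (hC : ExtCl C) (f : HNNExtension M A B φ →* Q) (hf : ∀ a ∈ A, f (of a) = 1 → a = 1)
    (hM : C (f.comp of).ker) : C f.ker := by
  obtain ⟨V, Φ, hΦ, hΦR⟩ := hside f hf
  set R := Subgroup.normalClosure (kerB f) with hR
  have hRf : R ≤ f.ker := kerB_le f
  have hRΦ : R ≤ (FS V M (f.comp of).ker).comap Φ := by
    have := FS_normal V M (f.comp of).ker inferInstance
    exact Subgroup.normalClosure_le_normal fun x hx => hΦR x hx
  let F : HNNExtension M A B φ →* Wr V M × (HNNExtension M A B φ ⧸ R) :=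
    Φ.prod (QuotientGroup.mk' R)
  have hF : C F.ker := by
    refine hnn_ker hC A B φ F ?_
    rw [injective_iff_map_eq_one]
    intro m hm
    exact hΦ m (congrArg (fun x => x.1) hm)
  have hRC : C R := by
    let π : R →* FS V M (f.comp of).ker := (Φ.comp R.subtype).codRestrict _ fun x => hRΦ x.2
    refine ext_hom hC π ?_ (FS_mem hC V M _ hM)
    refine hC.sub _ F.ker
      { toFun := fun x => ⟨x.1.1, ?_⟩
        map_one' := rfl
        map_mul' := fun _ _ => rfl } ?_ hF
    · have h1 : π x.1 = 1 := x.2
      have h2 : Φ x.1.1 = 1 := congrArg (fun z => z.1) h1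
      have h4 : QuotientGroup.mk' R x.1.1 = 1 := (QuotientGroup.eq_one_iff _).2 x.1.2
      show F x.1.1 = 1
      exact Prod.ext h2 h4
    · intro x y h
      exact Subtype.ext (Subtype.ext (congrArg (fun z : F.ker => (z : HNNExtension M A B φ)) h))
  let ρ : f.ker →* (QuotientGroup.lift R f hRf).ker :=
    ((QuotientGroup.mk' R).comp f.ker.subtype).codRestrict _ fun x => x.2
  refine ext_hom hC ρ ?_ (quot_hnn hC f hf)
  refine hC.sub _ R
    { toFun := fun x => ⟨x.1.1, (QuotientGroup.eq_one_iff _).1 (congrArg Subtype.val x.2)⟩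
      map_one' := rfl
      map_mul' := fun _ _ => rfl } ?_ hRC
  intro x y h
  exact Subtype.ext (Subtype.ext (congrArg (fun z : R => (z : HNNExtension M A B φ)) h))

end hnn

end Pool.Agent.R779.BC
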