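import Pool.Agent.R779.BC.Hn
import Pool.Agent.R665.FJ.Flag

/-!
# Splittings with a homomorphism which is injective on the edge groups, and flag presentations
-/

set_option autoImplicit false

namespace Pool.Agent.R779.BC

open Pool.Agent.Y110.FJ
open Pool.Agent.R941.BC (Inherit W El W_sub W_union W_ext W_over W_le)
open Pool.Agent.R665.FJ.Flag

/-- the groups `G` with a homomorphism `f : G → Q` that are built by amalgamated products and HNN
extensions on whose edge groups `f` is injective, and by directed unions, from groups on which the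
kernel of `f` is in `C` -/
inductive Split (C : ∀ (G : Type) [Group G], Prop) (Q : Type) [Group Q] :
    ∀ (G : Type) [Group G], (G →* Q) → Prop
  | vertex (G : Type) [Group G] (f : G →* Q) : C f.ker → Split C Q G f
  | amalgam (G : Type) [Group G] (f : G →* Q) (A B K : Subgroup G) : Amg A B K →
      (∀ k ∈ K, f k = 1 → k = 1) → Split C Q A (f.comp A.subtype) →
      Split C Q B (f.comp B.subtype) → Split C Q G f
  | hnn (M : Type) [Group M] (A B : Subgroup M) (φ : A ≃* B) (f : HNNExtension M A B φ →* Q) :
      (∀ a ∈ A, f (HNNExtension.of a) = 1 → a = 1) →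
      Split C Q M (f.comp HNNExtension.of) → Split C Q (HNNExtension M A B φ) f
  | iso (G H : Type) [Group G] [Group H] (e : G ≃* H) (f : H →* Q) :
      Split C Q H f → Split C Q G (f.comp e.toMonoidHom)
  | union (G : Type) [Group G] (f : G →* Q) (I : Type) (K : I → Subgroup G) :
      Nonempty I → Directed (· ≤ ·) K → (∀ g, ∃ i, g ∈ K i) →
      (∀ i, Split C Q (K i) (f.comp (K i).subtype)) → Split C Q G f

variable {C : ∀ (G : Type) [Group G], Prop}

/-- a finitely generated subgroup is contained in a member of a directed system -/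
theorem fg_le {G I : Type} [Group G] [hI : Nonempty I] (K : I → Subgroup G)
    (hK : Directed (· ≤ ·) K) (hg : ∀ g, ∃ i, g ∈ K i) (L : Subgroup G) (hL : L.FG) :
    ∃ i, L ≤ K i := by
  classical
  obtain ⟨E, rfl⟩ := hL
  induction E using Finset.induction_on with
  | empty => exact ⟨hI.some, by simp⟩
  | insert a E _ ih =>
    obtain ⟨i, hi⟩ := ih
    obtain ⟨j, hj⟩ := hg a
    obtain ⟨k, hik, hjk⟩ := hK i j
    refine ⟨k, ?_⟩
    rw [Finset.coe_insert, Subgroup.closure_le, Set.insert_subset_iff]
    exact ⟨hjk hj, fun x hx => hik (hi (Subgroup.subset_closure hx))⟩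

/-- **the kernels of splittings** -/
theorem split_ker (hC : ExtCl C) {Q G : Type} [Group Q] [Group G] (f : G →* Q)
    (h : Split C Q G f) : C f.ker := by
  induction h with
  | vertex G f h => exact h
  | amalgam G f A B K hamg hK _ _ ihA ihB => exact am hC A B K hamg f hK ihA ihB
  | hnn M A B φ f hf _ ih => exact hn hC f hf ih
  | iso G H e f _ ih =>
    refine hC.sub _ f.ker
      { toFun := fun x => ⟨e x.1, x.2⟩
        map_one' := Subtype.ext (map_one e)
        map_mul' := fun x y => Subtype.ext (map_mul e x.1 y.1) } ?_ ih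
    intro x y hxy
    exact Subtype.ext (e.injective (congrArg (fun z : f.ker => (z : H)) hxy))
  | union G f I K hI hK hg _ ih =>
    refine hC.union _ fun L hL => ?_
    have hL' : (L.map f.ker.subtype).FG := by
      obtain ⟨E, rfl⟩ := hL
      classical
      refine ⟨E.image f.ker.subtype, ?_⟩
      rw [Finset.coe_image, MonoidHom.map_closure]
    obtain ⟨i, hi⟩ := fg_le K hK hg _ hL'
    refine hC.sub _ (f.comp (K i).subtype).ker
      { toFun := fun x => ⟨⟨x.1.1, hi ⟨x.1, x.2, rfl⟩⟩, x.1.2⟩
        map_one' := rfl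
        map_mul' := fun _ _ => rfl } ?_ (ih i)
    intro x y hxy
    exact Subtype.ext (Subtype.ext
      (congrArg (fun z : (f.comp (K i).subtype).ker => ((z : K i) : G)) hxy))

section flag

variable {X V : Type} {β : X → V} {adj : V → V → Prop} {rels : Set (FreeGroup X)}

theorem blocks_mem (hC : ExtCl C) (hp : FlagPres β adj rels)
    (hcl : ∀ S : Finset V, (∀ v ∈ S, ∀ w ∈ S, v ≠ w → adj v w) → C ↥(blocks β rels (S : Set V)))
    (U : Finset V) : C ↥(blocks β rels (U : Set V)) := by
  classical
  induction U using Finset.strongInduction with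
  | H U ih =>
    by_cases hU : ∀ v ∈ U, ∀ w ∈ U, v ≠ w → adj v w
    · exact hcl U hU
    · push Not at hU
      obtain ⟨x, hx, y, hy, hxy, hadj⟩ := hU
      have hsx : ((U.erase x : Finset V) : Set V) = (U : Set V) \ {x} := by simp
      have hsy : ((U.erase y : Finset V) : Set V) = (U : Set V) \ {y} := by simp
      have h1 := ih _ (Finset.erase_ssubset hx)
      have h2 := ih _ (Finset.erase_ssubset hy)
      rw [hsx] at h1
      rw [hsy] at h2
      let q : ↥(blocks β rels (U : Set V)) →* ↥(blocks β rels ((U : Set V) \ {x})) :=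
        ((killG hp x).comp (blocks β rels (U : Set V)).subtype).codRestrict
          (blocks β rels ((U : Set V) \ {x})) (fun g => killG_mem hp x _ g.1 g.2)
      refine ext_hom hC q (am hC
        ((blocks β rels ((U : Set V) \ {x})).subgroupOf (blocks β rels (U : Set V)))
        ((blocks β rels ((U : Set V) \ {y})).subgroupOf (blocks β rels (U : Set V)))
        ((blocks β rels ((U : Set V) \ {x, y})).subgroupOf (blocks β rels (U : Set V)))
        (amg hp (U : Set V) x y hxy hadj) q ?_ ?_ ?_) h1
      · rintro ⟨k, hk'⟩ hk h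
        have hk2 : k ∈ blocks β rels ((U : Set V) \ {x, y}) := hk
        have h3 : killG hp x k = 1 :=
          congrArg (fun z : ↥(blocks β rels ((U : Set V) \ {x})) => z.1) h
        rw [killG_eq hp x _ (fun h' => h'.2 (Or.inl rfl)) k hk2] at h3
        exact Subtype.ext h3
      · refine hC.sub _ ↥(blocks β rels ((U : Set V) \ {x}))
          { toFun := fun a => ⟨a.1.1.1, a.1.2⟩, map_one' := rfl, map_mul' := fun _ _ => rfl } ?_ h1
        intro a b h
        apply Subtype.ext
        apply Subtype.ext
        apply Subtype.ext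
        exact congrArg (fun z : ↥(blocks β rels ((U : Set V) \ {x})) => z.1) h
      · refine hC.sub _ ↥(blocks β rels ((U : Set V) \ {y}))
          { toFun := fun a => ⟨a.1.1.1, a.1.2⟩, map_one' := rfl, map_mul' := fun _ _ => rfl } ?_ h2
        intro a b h
        apply Subtype.ext
        apply Subtype.ext
        apply Subtype.ext
        exact congrArg (fun z : ↥(blocks β rels ((U : Set V) \ {y})) => z.1) h

/-- **flag presentations** -/
theorem flag (hC : ExtCl C) (hp : FlagPres β adj rels)
    (hcl : ∀ S : Finset V, (∀ v ∈ S, ∀ w ∈ S, v ≠ w → adj v w) →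
      C ↥(blocks β rels (S : Set V))) : C (PresentedGroup rels) := by
  classical
  refine hC.union _ fun L hL => ?_
  have : Nonempty (Finset V) := ⟨∅⟩
  obtain ⟨U, hU⟩ := fg_le (fun U : Finset V => blocks β rels (U : Set V))
    (fun i j => ⟨i ∪ j, blocks_mono (by simp), blocks_mono (by simp)⟩)
    (fun g => exists_fin g) L hL
  exact hC.sub _ _ (Subgroup.inclusion hU) (Subgroup.inclusion_injective hU)
    (blocks_mem hC hp hcl U)

end flag

variable {B S : ∀ (G : Type) [Group G], Prop}

theorem W_extCl (h : Inherit B S) (hF : W B (FreeGroup ℕ)) : ExtCl (W B) :=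
  ⟨fun G H _ _ f hf hH => W_sub G H f hf hH, fun G _ hG => W_union h G hG,
    fun G _ N _ hN hQ => W_ext h G N hN hQ, hF⟩

/-- **main theorem** -/
theorem main (h : Inherit B S) (hF : W B (FreeGroup ℕ)) :
    (∀ (Q G : Type) [Group Q] [Group G] (f : G →* Q), Split (W B) Q G f → W B f.ker ∧
      (Countable G → (B (G ⧸ f.ker) → B G) ∧ (S (G ⧸ f.ker) → S G))) ∧
    (∀ (X V : Type) (β : X → V) (adj : V → V → Prop) (rels : Set (FreeGroup X)),
      FlagPres β adj rels →
      (∀ U : Finset V, (∀ v ∈ U, ∀ w ∈ U, v ≠ w → adj v w) → W B ↥(blocks β rels (U : Set V))) →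
      W B (PresentedGroup rels)) ∧
    (∀ (X V : Type) (β : X → V) (m : X → X → ℕ) (p : X → ℕ),
      (∀ x y, Odd (m x y) → β x = β y) →
      (∀ U : Finset V, (∀ v ∈ U, ∀ w ∈ U, v ≠ w → Joined β m v w) →
        W B ↥(blocks β (artin m p) (U : Set V))) →
      W B (PresentedGroup (artin m p))) := by
  have hC := W_extCl h hF
  refine ⟨fun Q G _ _ f hf => ?_, fun _ _ _ _ _ hp hcl => flag hC hp hcl,
    fun _ _ β m p hodd hcl => flag hC (artin_flag β m p hodd) hcl⟩
  have h1 : W B f.ker := split_ker hC f hf
  refine ⟨h1, fun _ => ⟨fun hB => h.ext G f.ker hB (W_over G f.ker h1),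
    fun hS => h.extS G f.ker hS (W_over G f.ker h1)⟩⟩

end Pool.Agent.R779.BC
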